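import Pool.Agent.Lib.PiMuB.Main
import Pool.Agent.Lib.PiMuB.Digits

/-!
# Rational approximations and repeated digit blocks of `π`

The irrationality exponent of `π` is at most `61/10`: for all large `q` and all integers `p` one
has `|π - p/q| ≥ q^(-61/10)`. In digits: there is a constant `C` such that in every base `b ≥ 2` a
block of `l` digits of `π` at the places `m + 1, …, m + l` is repeated `r` places later only if
`l ≤ (51/10) (m + r) + C`. Here the digit of `π` at the place `i` after the point is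
`⌊b^i π⌋ mod b`.
-/

namespace Pool.Agent.Results.MP_7e9a3a_nt.ApproximationPi

theorem result :
    (∃ Q : ℕ, ∀ q : ℕ, Q ≤ q → ∀ p : ℤ,
      1 / (q : ℝ) ^ (61 / 10 : ℝ) ≤ |Real.pi - (p : ℝ) / (q : ℝ)|) ∧
    (∃ C : ℝ, ∀ b : ℕ, 2 ≤ b → ∀ m r l : ℕ, 1 ≤ r →
      (∀ i : ℕ, m < i → i ≤ m + l →
        ⌊(b : ℝ) ^ (i + r) * Real.pi⌋₊ % b = ⌊(b : ℝ) ^ i * Real.pi⌋₊ % b) →
      (l : ℝ) ≤ 51 / 10 * ((m : ℝ) + (r : ℝ)) + C) :=
  ⟨Pool.Agent.Lib.PiMuB.main,
    Pool.Agent.Lib.PiMuB.digits_repetition Pool.Agent.Lib.PiMuB.main⟩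

end Pool.Agent.Results.MP_7e9a3a_nt.ApproximationPi
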