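import Pool.Agent.Lib.MP_7e9a3a_nt.Cplx.Final

/-!
# Problem MP_7e9a3a_nt

A lower bound for the number of distinct digit blocks of length `n` in the base `b` expansion
of `e`.
-/

namespace Pool.Agent.Results.MP_7e9a3a_nt.BlockComplexityE

/-- For every base `b ≥ 2` there is a constant `C` such that for all `n ≥ 1` the number of distinct
blocks of `n` consecutive digits in the base `b` expansion of `e` (digits after the point) is at
least `5 n / 4 - 10 log n - C`. -/
theorem result (b : ℕ) [NeZero b] (hb : 2 ≤ b) : ∃ C : ℝ, ∀ n : ℕ, 1 ≤ n →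
    (5 / 4 : ℝ) * n - 10 * Real.log n - C ≤
      ({w : Fin n → Fin b | ∃ i : ℕ, ∀ k : Fin n,
        w k = Real.digits (Int.fract (Real.exp 1)) b (i + k)}.ncard : ℝ) := by
  refine ⟨10 * Real.log (600 * b) + 6, fun n hn => ?_⟩
  have h := Pool.Agent.Lib.MP_7e9a3a_nt.Cplx.final b hb n hn
  have hset : {w : Fin n → Fin b | ∃ i : ℕ, ∀ k : Fin n,
      w k = Real.digits (Int.fract (Real.exp 1)) b (i + k)}
      = Set.range (Pool.Agent.Lib.MP_7e9a3a_nt.Cplx.block
        (Pool.Agent.Lib.MP_7e9a3a_nt.Cplx.edig b) n) := by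
    ext w
    constructor
    · rintro ⟨i, hi⟩
      exact ⟨i, (funext hi).symm⟩
    · rintro ⟨i, rfl⟩
      exact ⟨i, fun k => rfl⟩
  rw [hset]
  exact h

end Pool.Agent.Results.MP_7e9a3a_nt.BlockComplexityE
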