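import Pool.Agent.Lib.DCA.AFin

/-!
# The number of digit changes of `√2` grows faster than every power of `log N`, in every base

Write `a_k` for the `k`-th digit of `√2` in base `b`, `F = ∑ f_k X^k` with `f_{k+ℓ} =
b^ℓ (a_{k+ℓ} - a_k)`, `D = 2 (b^ℓ - 1)^2`, and suppose that at most `m ≤ (log N)^A` of the `f_k`,
`k ≤ N`, are not zero.

* Let `p` be a large (but fixed) prime such that `D` is not a square modulo `p`. The measure
  `μ(k) = f_k b^{-k}` modulo `p` has a square with prefix sums equal to `D` off a sparse set, and its
  own prefix sums satisfy `S(p n) = - S(n)` off a sparse set. So the points of `μ` (after merging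
  at a given resolution) in the windows `[g K^i, g K^(i+1))`, `K` an even power of `p`, can be
  compared with the points of a top window `B`, and a point has few *light* levels.
* Counting (Kraft's inequality for separated tuples with nearly equal sums): a typical `n`-tuple of
  points can only be changed in boundedly many ways by moves which replace two coordinates
  by two other points with nearly the same sum, and the tuples which are reached are described by the
  partitions of the light levels of the tuple into `n` blocks of the same size `d`.
* Endgame: by Ramsey's theorem the light levels may be taken to be homogeneous; take two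
  interleaved copies of a block of maximal type. All possible splittings of their union have the
  same type, their number is between `1` and `binom(2d, d) < p`, and the sum of the corresponding products
  of masses (all equal to the same square) must be zero: a contradiction.
-/

open Finset

namespace Pool.Agent.Results.MP_7e9a3a_nt.DigitChangesAnyPower

/-- For every base `b ≥ 2`, every lag `l ≥ 1` and every `A` there are at least `(log N)^A` indices
`1 ≤ k ≤ N` at which the base-`b` digits `a_{k+l}` and `a_k` of `√2` are different, for all
large `N`. -/
theorem result (b l A : ℕ) (hb : 2 ≤ b) (hl : 1 ≤ l) :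
    ∃ N₀ : ℕ, ∀ N : ℕ, N₀ ≤ N →
      Real.log N ^ A ≤
        (#{k ∈ Icc 1 N | ⌊(b : ℝ) ^ (k + l) * √2⌋₊ % b ≠ ⌊(b : ℝ) ^ k * √2⌋₊ % b} : ℝ) :=
  Pool.Agent.DCA.all_powers b l A hb hl

end Pool.Agent.Results.MP_7e9a3a_nt.DigitChangesAnyPower
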