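import Pool.Agent.Lib.DigitChanges.OddBase

/-!
# Digit changes of `√2` in odd bases

Write `a_k` for the `k`-th digit of `√2` in the odd base `b`, `A = ∑ a_k X^k`,
`E = ∑ b^k X^k = 1 / (1 - b X)`, `P = A E = ∑ ⌊b^k √2⌋ X^k`, `F = b^ℓ (1 - X^ℓ) A`
and `G = F E`, `D = 2 (b^ℓ - 1)²`.

* `G_k = b^k (b^ℓ - 1) √2 - δ_k` with `δ` bounded and `δ_k = b δ_{k-1} - f_k`; hence
  `T = (D - F²) E` has only `O(M²)` nonzero coefficients of index `< N`, where `M` is the number
  of nonzero coefficients of `F` of index `≤ N`.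
* Modulo `2`, `T = (1 + X) G(X²)`, as `b` is odd, so `G_k` is even for all but `O(M²)` of the
  indices. Dividing by `2` and repeating this (the set of the `k` with `2^i ∤ G_k` is a union of
  at most `M` intervals, which controls the supports), `2^{v+1} ∣ G_k` for all but `O(M^{v+2})`
  indices, and then `T_R / 2^{2v+1}` is odd, hence nonzero, for all `R` but `O(M^{v+3})`.
  So `N = O(M^{v+3})`.
-/

open Finset

namespace Pool.Agent.Results.MP_7e9a3a_nt.DigitChangesOddBase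

/-- For every odd base `b ≥ 3` and every lag `l ≥ 1`, there are at least
`c N ^ (1 / (v + 3))` indices `1 ≤ k ≤ N` at which the base-`b` digits `a_{k+l}` and `a_k` of
`√2` are different, for all large `N`, where `v = v₂(b^l - 1)`. -/
theorem result (b l : ℕ) (hb : 3 ≤ b) (hodd : Odd b) (hl : 1 ≤ l) :
    ∃ c : ℝ, 0 < c ∧ ∃ N₀ : ℕ, ∀ N : ℕ, N₀ ≤ N →
      c * (N : ℝ) ^ ((1 : ℝ) / ((padicValNat 2 (b ^ l - 1) : ℝ) + 3)) ≤
        (#{k ∈ Icc 1 N | ⌊(b : ℝ) ^ (k + l) * √2⌋₊ % b ≠ ⌊(b : ℝ) ^ k * √2⌋₊ % b} : ℝ) :=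
  Pool.Agent.DigitChanges.odd_base b l hb hodd hl

end Pool.Agent.Results.MP_7e9a3a_nt.DigitChangesOddBase
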